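import Mathlib

/-!
The 3-graph of the triples with exactly one vertex in a given set.
-/

set_option autoImplicit false
open Finset Filter Topology
open scoped Classical

namespace Pool.Agent.Run7.h346.LC

/-- the triples with exactly one vertex less than `b` -/
noncomputable def aab (n b : ℕ) : Finset (Finset (Fin n)) :=
  univ.filter fun e => e.card = 3 ∧ (e.filter fun x => x.val < b).card = 1

theorem aab_card {n b : ℕ} : ∀ e ∈ aab n b, e.card = 3 := fun _ he => (mem_filter.1 he).2.1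

theorem aab_free {n b : ℕ} (S : Finset (Fin n)) (hS : S.card = 4) :
    ∃ s ⊆ S, s.card = 3 ∧ s ∉ aab n b := by
  set T := S.filter fun x => x.val < b with hT
  have hnot : ∀ s : Finset (Fin n), (s.filter fun x => x.val < b).card ≠ 1 → s ∉ aab n b :=
    fun s hs h => hs (mem_filter.1 h).2.2
  rcases Nat.lt_or_ge T.card 2 with h | h
  · rcases Nat.lt_or_ge T.card 1 with h1 | h1
    · obtain ⟨s, hs, hc⟩ := exists_subset_card_eq (s := S) (n := 3) (by omega)
      refine ⟨s, hs, hc, hnot s ?_⟩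
      have h2 : (s.filter fun x => x.val < b).card ≤ T.card :=
        card_le_card (filter_subset_filter _ hs)
      omega
    · refine ⟨S \ T, Finset.sdiff_subset, ?_, hnot _ ?_⟩
      · have h2 : (S \ T).card = S.card - T.card := by
          rw [card_sdiff_of_subset (filter_subset _ _)]
        omega
      · have h2 : ((S \ T).filter fun x => x.val < b) = ∅ := by
          ext x
          simp only [hT, mem_filter, Finset.mem_sdiff, Finset.notMem_empty, iff_false]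
          tauto
        rw [h2]
        simp
  · obtain ⟨t, ht, htc⟩ := exists_subset_card_eq (s := T) (n := 2) h
    obtain ⟨s, hs1, hs2, hs3⟩ := exists_subsuperset_card_eq (ht.trans (filter_subset _ S))
      (n := 3) (by omega) (by omega)
    refine ⟨s, hs2, hs3, hnot s ?_⟩
    have h2 : t ⊆ s.filter fun x => x.val < b := fun x hx =>
      mem_filter.2 ⟨hs1 hx, (mem_filter.1 (ht hx)).2⟩
    have := card_le_card h2
    omega

theorem aab_mem {n b : ℕ} {x y z : Fin n} (hx : x.val < b) (hy : b ≤ y.val) (hz : b ≤ z.val)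
    (hyz : y ≠ z) : ({x, y, z} : Finset (Fin n)) ∈ aab n b := by
  have hxy : x ≠ y := fun h => by rw [h] at hx; omega
  have hxz : x ≠ z := fun h => by rw [h] at hx; omega
  refine mem_filter.2 ⟨mem_univ _, card_eq_three.2 ⟨x, y, z, hxy, hxz, hyz, rfl⟩, ?_⟩
  rw [card_eq_one]
  refine ⟨x, ?_⟩
  ext w
  simp only [mem_filter, mem_insert, mem_singleton]
  constructor
  · rintro ⟨h1 | h1 | h1, h2⟩
    · exact h1
    · rw [h1] at h2; omega
    · rw [h1] at h2; omega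
  · intro h1
    exact ⟨Or.inl h1, h1 ▸ hx⟩

theorem card_big (n b : ℕ) : (univ.filter fun x : Fin n => b ≤ x.val).card = n - b := by
  have h1 : (univ.filter fun x : Fin n => x.val < b).card = min n b := Fin.card_filter_val_lt
  have h2 := card_filter_add_card_filter_not (s := (univ : Finset (Fin n))) (fun x => x.val < b)
  rw [h1, card_univ, Fintype.card_fin] at h2
  have h3 : (univ.filter fun x : Fin n => ¬ x.val < b).card =
      (univ.filter fun x : Fin n => b ≤ x.val).card := by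
    congr 1
    ext x
    simp
  omega

theorem card_big_erase (n b : ℕ) (y : Fin n) (_hy : b ≤ y.val) :
    n - b - 1 ≤ (univ.filter fun z : Fin n => b ≤ z.val ∧ y ≠ z).card := by
  have h1 : (univ.filter fun z : Fin n => b ≤ z.val ∧ y ≠ z) =
      (univ.filter fun z : Fin n => b ≤ z.val).erase y := by
    ext z
    simp only [mem_filter, mem_univ, true_and, mem_erase]
    constructor
    · rintro ⟨h2, h3⟩; exact ⟨fun h => h3 h.symm, h2⟩
    · rintro ⟨h2, h3⟩; exact ⟨h3, fun h => h2 h.symm⟩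
  rw [h1]
  have := pred_card_le_card_erase (s := univ.filter fun z : Fin n => b ≤ z.val) (a := y)
  rw [card_big] at this
  exact this

theorem aab_codeg {n b : ℕ} {x y : Fin n} (hx : x.val < b) (hy : b ≤ y.val) :
    n - b - 1 ≤ (univ.filter fun z => ({x, y, z} : Finset (Fin n)) ∈ aab n b).card := by
  refine (card_big_erase n b y hy).trans (card_le_card fun z hz => ?_)
  rw [mem_filter] at hz ⊢
  exact ⟨mem_univ _, aab_mem hx hy hz.2.1 hz.2.2⟩

theorem aab_codeg' {n b : ℕ} {x y : Fin n} (hx : x.val < b) (hy : b ≤ y.val) :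
    n - b - 1 ≤ (univ.filter fun z => ({y, x, z} : Finset (Fin n)) ∈ aab n b).card := by
  have h : ∀ z, ({y, x, z} : Finset (Fin n)) = {x, y, z} := fun z => Finset.insert_comm _ _ _
  simp only [h]
  exact aab_codeg hx hy

theorem aab_links {n b : ℕ} {x : Fin n} (hx : x.val < b) :
    (n - b) * (n - b - 1) ≤ (univ.filter fun q : Fin n × Fin n =>
      ({x, q.1, q.2} : Finset (Fin n)) ∈ aab n b).card := by
  have h1 : ((univ.filter fun y : Fin n => b ≤ y.val).sigma fun y =>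
      univ.filter fun z : Fin n => b ≤ z.val ∧ y ≠ z).card =
      ∑ y ∈ univ.filter (fun y : Fin n => b ≤ y.val),
        (univ.filter fun z : Fin n => b ≤ z.val ∧ y ≠ z).card := card_sigma _ _
  have h2 : (n - b) * (n - b - 1) ≤ ((univ.filter fun y : Fin n => b ≤ y.val).sigma fun y =>
      univ.filter fun z : Fin n => b ≤ z.val ∧ y ≠ z).card := by
    rw [h1]
    calc (n - b) * (n - b - 1) = ∑ y ∈ univ.filter (fun y : Fin n => b ≤ y.val), (n - b - 1) := by
          rw [sum_const, card_big, smul_eq_mul]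
      _ ≤ _ := sum_le_sum fun y hy => card_big_erase n b y (mem_filter.1 hy).2
  refine h2.trans (card_le_card_of_injOn (fun s => (s.1, s.2)) ?_ ?_)
  · rintro ⟨y, z⟩ hs
    rw [mem_coe, mem_sigma, mem_filter, mem_filter] at hs
    rw [mem_coe, mem_filter]
    exact ⟨mem_univ _, aab_mem hx hs.1.2 hs.2.2.1 hs.2.2.2⟩
  · rintro ⟨y, z⟩ _ ⟨y', z'⟩ _ h
    simp only [Prod.mk.injEq] at h
    obtain ⟨rfl, rfl⟩ := h
    rfl

theorem sum_ge {n b : ℕ} (hb : b ≤ n) (f : Fin n → Fin n → ℝ) (c : ℝ) (h0 : ∀ x y, 0 ≤ f x y)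
    (h1 : ∀ x y : Fin n, x.val < b → b ≤ y.val → c ≤ f x y)
    (h2 : ∀ x y : Fin n, x.val < b → b ≤ y.val → c ≤ f y x) :
    2 * ((b : ℝ) * ((n - b : ℕ) : ℝ)) * c ≤ ∑ x : Fin n, ∑ y : Fin n, f x y := by
  set P := univ.filter fun x : Fin n => x.val < b with hP
  set Q := univ.filter fun x : Fin n => b ≤ x.val with hQ
  have hPc : P.card = b := by
    rw [hP, Fin.card_filter_val_lt]
    omega
  have hQc : Q.card = n - b := card_big n b
  have hPQ : univ.filter (fun x : Fin n => ¬ x.val < b) = Q := by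
    ext; simp [hQ]
  have e1 : ((b : ℝ) * ((n - b : ℕ) : ℝ)) * c ≤ ∑ x ∈ P, ∑ y : Fin n, f x y := by
    calc ((b : ℝ) * ((n - b : ℕ) : ℝ)) * c = ∑ x ∈ P, ∑ y ∈ Q, c := by
          rw [sum_const, sum_const, nsmul_eq_mul, nsmul_eq_mul, hPc, hQc, mul_assoc]
      _ ≤ ∑ x ∈ P, ∑ y ∈ Q, f x y := sum_le_sum fun x hx => sum_le_sum fun y hy =>
          h1 x y (mem_filter.1 hx).2 (mem_filter.1 hy).2
      _ ≤ _ := sum_le_sum fun x _ => sum_le_sum_of_subset_of_nonneg (subset_univ _)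
          fun y _ _ => h0 x y
  have e2 : ((b : ℝ) * ((n - b : ℕ) : ℝ)) * c ≤ ∑ x ∈ Q, ∑ y : Fin n, f x y := by
    calc ((b : ℝ) * ((n - b : ℕ) : ℝ)) * c = ∑ x ∈ Q, ∑ y ∈ P, c := by
          rw [sum_const, sum_const, nsmul_eq_mul, nsmul_eq_mul, hPc, hQc]; ring
      _ ≤ ∑ x ∈ Q, ∑ y ∈ P, f x y := sum_le_sum fun x hx => sum_le_sum fun y hy =>
          h2 y x (mem_filter.1 hy).2 (mem_filter.1 hx).2
      _ ≤ _ := sum_le_sum fun x _ => sum_le_sum_of_subset_of_nonneg (subset_univ _)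
          fun y _ _ => h0 x y
  rw [← sum_filter_add_sum_filter_not univ (fun x : Fin n => x.val < b), hPQ, ← hP]
  linarith

theorem floor_lim {β : ℝ} (hβ : 0 ≤ β) :
    Tendsto (fun n : ℕ => (⌊β * n⌋₊ : ℝ) / n) atTop (𝓝 β) :=
  (tendsto_nat_floor_mul_div_atTop hβ).comp tendsto_natCast_atTop_atTop

theorem sub_lim {β : ℝ} (hβ : 0 ≤ β) (hβ1 : β ≤ 1) :
    Tendsto (fun n : ℕ => ((n - ⌊β * n⌋₊ : ℕ) : ℝ) / n) atTop (𝓝 (1 - β)) := by
  have h1 := (tendsto_const_nhds (x := (1 : ℝ))).sub (floor_lim hβ)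
  refine h1.congr' ?_
  filter_upwards [eventually_gt_atTop 0] with n hn
  have h2 : ⌊β * n⌋₊ ≤ n := by
    refine Nat.floor_le_of_le ?_
    nlinarith [(Nat.cast_nonneg n : (0:ℝ) ≤ n)]
  rw [Nat.cast_sub h2, sub_div, div_self]
  exact_mod_cast hn.ne'

theorem sub1_lim {β : ℝ} (hβ : 0 ≤ β) (hβ1 : β < 1) :
    Tendsto (fun n : ℕ => ((n - ⌊β * n⌋₊ - 1 : ℕ) : ℝ) / n) atTop (𝓝 (1 - β)) := by
  have h1 := (sub_lim hβ hβ1.le).sub (tendsto_const_div_atTop_nhds_zero_nat (1 : ℝ))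
  rw [sub_zero] at h1
  refine h1.congr' ?_
  have h3 := (sub_lim hβ hβ1.le).eventually_const_lt (show (0 : ℝ) < 1 - β by linarith)
  filter_upwards [eventually_gt_atTop 0, h3] with n hn h4
  have h5 : 1 ≤ n - ⌊β * n⌋₊ := by
    by_contra hcon
    have : n - ⌊β * n⌋₊ = 0 := by omega
    rw [this] at h4
    simp at h4
  rw [Nat.cast_sub h5, sub_div, Nat.cast_one]

theorem one_sub_pow {q : ℝ} (hq : 0 < q) : Real.exp (-1) ≤ (1 - 1 / (q + 1)) ^ q := by
  have h1 : (1 : ℝ) - 1 / (q + 1) = (1 + 1 / q)⁻¹ := by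
    field_simp
    ring
  have h2 : 0 < 1 + 1 / q := by positivity
  rw [h1, Real.inv_rpow h2.le, Real.exp_neg]
  refine inv_anti₀ (Real.rpow_pos_of_pos h2 q) ?_
  have h3 : Real.log (1 + 1 / q) ≤ 1 / q := by
    have := Real.log_le_sub_one_of_pos h2
    linarith
  rw [Real.rpow_def_of_pos h2]
  refine Real.exp_le_exp.2 ?_
  calc Real.log (1 + 1 / q) * q ≤ 1 / q * q := by gcongr
    _ = 1 := by field_simp

/-- the lower bound for the sum of the powers of the codegrees -/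
theorem pair_low {p : ℝ} (hp : 1 ≤ p) {c : ℝ} (hc : c < 2 * Real.exp (-1) / (p + 2)) :
    ∃ N : ℕ, ∀ n : ℕ, N ≤ n → c * (n : ℝ) ^ (p + 2) <
      ∑ x : Fin n, ∑ y : Fin n, (((univ.filter fun z => ({x, y, z} : Finset (Fin n)) ∈
        aab n ⌊1 / (p + 2) * n⌋₊).card : ℕ) : ℝ) ^ p := by
  set β : ℝ := 1 / (p + 2) with hβ
  have hβ0 : 0 ≤ β := by positivity
  have hβ1 : β < 1 := by rw [hβ, div_lt_one (by linarith)]; linarith
  have hlim : Tendsto (fun n : ℕ => 2 * ((⌊β * n⌋₊ : ℝ) / n * (((n - ⌊β * n⌋₊ : ℕ) : ℝ) / n)) *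
      (((n - ⌊β * n⌋₊ - 1 : ℕ) : ℝ) / n) ^ p) atTop (𝓝 (2 * (β * (1 - β)) * (1 - β) ^ p)) := by
    refine (((floor_lim hβ0).mul (sub_lim hβ0 hβ1.le)).const_mul 2).mul ?_
    exact (sub1_lim hβ0 hβ1).rpow_const (Or.inr (by linarith))
  have hval : 2 * Real.exp (-1) / (p + 2) ≤ 2 * (β * (1 - β)) * (1 - β) ^ p := by
    have h1 := one_sub_pow (q := p + 1) (by linarith)
    have h2 : (1 : ℝ) - 1 / (p + 1 + 1) = 1 - β := by rw [hβ]; ring
    rw [h2, Real.rpow_add_one (by linarith)] at h1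
    have h3 : 2 * (β * (1 - β)) * (1 - β) ^ p = 2 * β * ((1 - β) ^ p * (1 - β)) := by ring
    have h4 : 2 * Real.exp (-1) / (p + 2) = 2 * β * Real.exp (-1) := by rw [hβ]; ring
    rw [h3, h4]
    exact mul_le_mul_of_nonneg_left h1 (by positivity)
  have hev := hlim.eventually_const_lt (hc.trans_le hval)
  obtain ⟨N, hN⟩ := eventually_atTop.1 (hev.and (eventually_gt_atTop 0))
  refine ⟨N, fun n hn => ?_⟩
  obtain ⟨h1, h2⟩ := hN n hn
  have hn0 : (0 : ℝ) < n := by exact_mod_cast h2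
  set b := ⌊β * n⌋₊ with hb
  have hbn : b ≤ n := by
    refine Nat.floor_le_of_le ?_
    nlinarith
  have h3 := sum_ge hbn (fun x y => (((univ.filter fun z => ({x, y, z} : Finset (Fin n)) ∈
        aab n b).card : ℕ) : ℝ) ^ p) (((n - b - 1 : ℕ) : ℝ) ^ p)
    (fun x y => Real.rpow_nonneg (Nat.cast_nonneg _) _)
    (fun x y hx hy => Real.rpow_le_rpow (Nat.cast_nonneg _) (by exact_mod_cast aab_codeg hx hy)
      (by linarith))
    (fun x y hx hy => Real.rpow_le_rpow (Nat.cast_nonneg _) (by exact_mod_cast aab_codeg' hx hy)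
      (by linarith))
  refine lt_of_lt_of_le ?_ h3
  have e1 : (n : ℝ) ^ (p + 2) = (n : ℝ) ^ p * (n * n) := by
    rw [Real.rpow_add hn0, Real.rpow_two, sq]
  have e2 : 2 * ((b : ℝ) * ((n - b : ℕ) : ℝ)) * ((n - b - 1 : ℕ) : ℝ) ^ p =
      2 * ((b : ℝ) / n * (((n - b : ℕ) : ℝ) / n)) * (((n - b - 1 : ℕ) : ℝ) / n) ^ p *
        ((n : ℝ) ^ p * (n * n)) := by
    rw [Real.div_rpow (Nat.cast_nonneg _) hn0.le]
    have : (n : ℝ) ^ p ≠ 0 := (Real.rpow_pos_of_pos hn0 p).ne'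
    field_simp
  rw [e1, e2]
  exact mul_lt_mul_of_pos_right h1 (by positivity)

/-- the lower bound for the sum of the powers of the degrees -/
theorem deg_low {p : ℝ} (hp : 1 ≤ p) {c : ℝ} (hc : c < Real.exp (-1) / (2 * p + 1)) :
    ∃ N : ℕ, ∀ n : ℕ, N ≤ n → c * n <
      ∑ x : Fin n, ((((univ.filter fun q : Fin n × Fin n =>
      ({x, q.1, q.2} : Finset (Fin n)) ∈ aab n ⌊1 / (2 * p + 1) * n⌋₊).card : ℕ) : ℝ) /
        (n : ℝ) ^ 2) ^ p := by
  set β : ℝ := 1 / (2 * p + 1) with hβ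
  have hβ0 : 0 ≤ β := by positivity
  have hβ1 : β < 1 := by rw [hβ, div_lt_one (by linarith)]; linarith
  have hlim : Tendsto (fun n : ℕ => (⌊β * n⌋₊ : ℝ) / n * ((((n - ⌊β * n⌋₊ : ℕ) : ℝ) / n) *
      (((n - ⌊β * n⌋₊ - 1 : ℕ) : ℝ) / n)) ^ p) atTop (𝓝 (β * ((1 - β) * (1 - β)) ^ p)) := by
    refine (floor_lim hβ0).mul ?_
    exact ((sub_lim hβ0 hβ1.le).mul (sub1_lim hβ0 hβ1)).rpow_const (Or.inr (by linarith))
  have hval : Real.exp (-1) / (2 * p + 1) ≤ β * ((1 - β) * (1 - β)) ^ p := by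
    have h1 := one_sub_pow (q := 2 * p) (by linarith)
    have h2 : (1 : ℝ) - 1 / (2 * p + 1) = 1 - β := by rw [hβ]
    have h3 : (1 - β) ^ (2 * p) = ((1 - β) * (1 - β)) ^ p := by
      rw [Real.mul_rpow (by linarith) (by linarith), ← Real.rpow_add (by linarith)]
      ring_nf
    rw [h2, h3] at h1
    have h4 : Real.exp (-1) / (2 * p + 1) = β * Real.exp (-1) := by rw [hβ]; ring
    rw [h4]
    exact mul_le_mul_of_nonneg_left h1 hβ0
  have hev := hlim.eventually_const_lt (hc.trans_le hval)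
  obtain ⟨N, hN⟩ := eventually_atTop.1 (hev.and (eventually_gt_atTop 0))
  refine ⟨N, fun n hn => ?_⟩
  obtain ⟨h1, h2⟩ := hN n hn
  have hn0 : (0 : ℝ) < n := by exact_mod_cast h2
  set b := ⌊β * n⌋₊ with hb
  have hbn : b ≤ n := by
    refine Nat.floor_le_of_le ?_
    nlinarith
  have h4 : ∀ x : Fin n, x.val < b → (((n - b : ℕ) : ℝ) / n *
      (((n - b - 1 : ℕ) : ℝ) / n)) ^ p ≤ ((((univ.filter fun q : Fin n × Fin n =>
      ({x, q.1, q.2} : Finset (Fin n)) ∈ aab n b).card : ℕ) : ℝ) / (n : ℝ) ^ 2) ^ p := by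
    intro x hx
    refine Real.rpow_le_rpow (by positivity) ?_ (by linarith)
    have h5 := aab_links (n := n) hx
    have h6 : ((n - b : ℕ) : ℝ) * ((n - b - 1 : ℕ) : ℝ) ≤ (((univ.filter fun q : Fin n × Fin n =>
      ({x, q.1, q.2} : Finset (Fin n)) ∈ aab n b).card : ℕ) : ℝ) := by exact_mod_cast h5
    rw [div_mul_div_comm, ← sq]
    gcongr
  calc c * n < (b : ℝ) / n * (((n - b : ℕ) : ℝ) / n * (((n - b - 1 : ℕ) : ℝ) / n)) ^ p * n :=
        mul_lt_mul_of_pos_right h1 hn0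
    _ = ∑ x ∈ univ.filter (fun x : Fin n => x.val < b),
        (((n - b : ℕ) : ℝ) / n * (((n - b - 1 : ℕ) : ℝ) / n)) ^ p := by
        rw [sum_const, nsmul_eq_mul, Fin.card_filter_val_lt, min_eq_right hbn]
        field_simp
    _ ≤ ∑ x ∈ univ.filter (fun x : Fin n => x.val < b), ((((univ.filter fun q : Fin n × Fin n =>
      ({x, q.1, q.2} : Finset (Fin n)) ∈ aab n b).card : ℕ) : ℝ) / (n : ℝ) ^ 2) ^ p :=
        sum_le_sum fun x hx => h4 x (mem_filter.1 hx).2
    _ ≤ _ := sum_le_sum_of_subset_of_nonneg (subset_univ _) fun x _ _ =>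
        Real.rpow_nonneg (by positivity) _

/-- Turán's construction is not optimal -/
theorem turan_lt {p : ℝ} (hp : 5 ≤ p) :
    (1 + 2 ^ (p + 1)) / 3 ^ (p + 1) < 2 * Real.exp (-1) / (p + 2) := by
  have h1 : (2 : ℝ) ^ (p + 1) / 3 ^ (p + 1) = (2 / 3) ^ (p + 1) := by
    rw [Real.div_rpow (by norm_num) (by norm_num)]
  have h2 : (1 : ℝ) / 3 ^ (p + 1) ≤ 1 / 64 * (2 / 3) ^ (p + 1) := by
    rw [← h1]
    have h3 : (64 : ℝ) ≤ 2 ^ (p + 1) := by
      calc (64 : ℝ) = 2 ^ (6 : ℝ) := by norm_num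
        _ ≤ 2 ^ (p + 1) := Real.rpow_le_rpow_of_exponent_le (by norm_num) (by linarith)
    rw [← mul_div_assoc]
    gcongr
    linarith
  have h4 : ((2 : ℝ) / 3) ^ (p + 1) * (1 + (p - 5) / 3) ≤ (2 / 3) ^ (6 : ℝ) := by
    have h5 : (1 : ℝ) + (p - 5) / 3 ≤ (3 / 2) ^ (p - 5) := by
      have h6 : (1 : ℝ) / 3 ≤ Real.log (3 / 2) := by
        have := Real.one_sub_inv_le_log_of_pos (show (0 : ℝ) < 3 / 2 by norm_num)
        norm_num at this
        linarith
      rw [Real.rpow_def_of_pos (by norm_num)]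
      have h7 := Real.add_one_le_exp (Real.log (3 / 2) * (p - 5))
      nlinarith
    calc ((2 : ℝ) / 3) ^ (p + 1) * (1 + (p - 5) / 3) ≤ (2 / 3) ^ (p + 1) * (3 / 2) ^ (p - 5) := by
          gcongr
      _ = (2 / 3) ^ (6 : ℝ) := by
          have h8 : ((3 : ℝ) / 2) ^ (p - 5) = (2 / 3) ^ (-(p - 5)) := by
            rw [Real.rpow_neg (by norm_num), ← Real.inv_rpow (by norm_num)]
            norm_num
          rw [h8, ← Real.rpow_add (by norm_num)]
          congr 1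
          ring
  have h9 : ((2 : ℝ) / 3) ^ (6 : ℝ) = 64 / 729 := by
    have : ((2 : ℝ) / 3) ^ (6 : ℝ) = (2 / 3) ^ (6 : ℕ) := by
      rw [← Real.rpow_natCast]; norm_num
    rw [this]; norm_num
  rw [h9] at h4
  have h10 : Real.exp (-1) > 0.36 := by
    have := Real.exp_neg_one_gt_d9
    linarith
  rw [add_div, h1, lt_div_iff₀ (by linarith)]
  have h11 : 0 < ((2 : ℝ) / 3) ^ (p + 1) := by positivity
  set u := ((2 : ℝ) / 3) ^ (p + 1) with hu
  have h12 : u * (p + 2) ≤ 7 * (64 / 729) := by nlinarith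
  nlinarith

end Pool.Agent.Run7.h346.LC
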