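import Pool.Agent.Run7.h346.LC.Deg

/-!
Large exponents.
-/

set_option autoImplicit false
open Finset Filter Topology
open scoped Classical

namespace Pool.Agent.Run7.h346.LC

theorem g_lim : Tendsto (fun p : ℝ => Real.log p ^ 3 / √p) atTop (𝓝 0) := by
  have h := (isLittleO_log_rpow_rpow_atTop (s := 1 / 2) 3 (by norm_num)).tendsto_div_nhds_zero
  refine h.congr' ?_
  filter_upwards [eventually_ge_atTop (1 : ℝ)] with p hp
  rw [Real.sqrt_eq_rpow, ← Real.rpow_natCast (Real.log p) 3]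
  norm_num

theorem pair_asym {ε : ℝ} (hε : 0 < ε) : ∃ p₀ : ℝ, 1 ≤ p₀ ∧ ∀ p : ℝ, p₀ ≤ p →
    ∀ (V : Type) [Fintype V] (H : V → V → V → Prop), Free H → 0 < Fintype.card V →
      ∑ x : V, ∑ y : V, Real.exp (-(p * m H x y / Fintype.card V)) ≤
        (1 + ε) * (2 * Real.exp (-1) / p) * (Fintype.card V : ℝ) ^ 2 := by
  set η : ℝ := Real.log (1 + ε / 2) with hη
  have hη0 : 0 < η := Real.log_pos (by linarith)
  have hηe : Real.exp η = 1 + ε / 2 := Real.exp_log (by linarith)
  have he1 : 0 < Real.exp (-1) := Real.exp_pos _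
  set c : ℝ := min (1 / 8) (ε * Real.exp (-1) / (256 / η + 9)) with hc
  have hc0 : 0 < c := lt_min (by norm_num) (by positivity)
  have hev : ∀ᶠ p : ℝ in atTop, Real.log p ^ 3 / √p ≤ c ∧ 1 ≤ Real.log p ∧ 1 ≤ p :=
    (g_lim.eventually_le_const hc0).and
      ((Real.tendsto_log_atTop.eventually_ge_atTop 1).and (eventually_ge_atTop 1))
  obtain ⟨p₀, hp₀⟩ := eventually_atTop.1 hev
  refine ⟨max p₀ 1, le_max_right _ _, fun p hp V _ H h hV => ?_⟩
  obtain ⟨h1, h2, h3⟩ := hp₀ p ((le_max_left _ _).trans hp)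
  have hp0 : 0 < p := by linarith
  have hsq : 0 < √p := Real.sqrt_pos.2 hp0
  have hsq2 : √p * √p = p := Real.mul_self_sqrt hp0.le
  have hsq1 : √p ≤ p := by
    have : 1 ≤ √p := by rw [Real.one_le_sqrt]; exact h3
    nlinarith
  set L := Real.log p with hL
  set g := L ^ 3 / √p with hg
  have hL3 : L ≤ L ^ 3 := by nlinarith [mul_nonneg (by linarith : (0:ℝ) ≤ L) (by nlinarith : (0:ℝ) ≤ L ^ 2 - 1)]
  have hL1 : 1 ≤ L ^ 3 := h2.trans hL3
  set σ : ℝ := 2 * L / p with hσ
  set l : ℝ := 1 / √p with hl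
  have hσ0 : 0 < σ := by rw [hσ]; positivity
  have hl0 : 0 < l := by rw [hl]; positivity
  have hLg : L / √p ≤ g := by
    rw [hg]; gcongr
  have h4 : 4 * σ ≤ l := by
    have h5 : L / √p ≤ 1 / 8 := hLg.trans (h1.trans (min_le_left _ _))
    have e1 : 4 * σ = 8 * (L / √p) * l := by
      rw [hσ, hl]
      field_simp
      nlinarith
    rw [e1]
    calc 8 * (L / √p) * l ≤ 8 * (1 / 8) * l := by gcongr
      _ = l := by ring
  have hw := weighted h hσ0 h4 hη0 hp0 hV
  refine hw.trans ?_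
  rw [mul_comm ((Fintype.card V : ℝ) ^ 2)]
  refine mul_le_mul_of_nonneg_right ?_ (by positivity)
  have e2 : 32 * p * σ ^ 3 / (η * l) = 256 / η * g / p := by
    rw [hσ, hl, hg]
    field_simp
    nlinarith
  have e3 : 4 * σ * l = 8 * (L / √p) / p := by
    rw [hσ, hl]
    field_simp
    norm_num
  have e4 : Real.exp (-(p * σ)) ≤ g / p := by
    have f1 : p * σ = 2 * L := by rw [hσ]; field_simp
    have f2 : Real.exp (-(2 * L)) = 1 / (p * p) := by
      rw [Real.exp_neg, two_mul, Real.exp_add, hL, Real.exp_log hp0, one_div]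
    rw [f1, f2, div_le_div_iff₀ (by positivity) hp0, one_mul]
    have f3 : 1 / √p ≤ g := by rw [hg]; gcongr
    have f4 : 1 ≤ g * p := by
      calc (1 : ℝ) = 1 / √p * √p := by field_simp
        _ ≤ g * p := mul_le_mul f3 hsq1 hsq.le (by positivity)
    nlinarith
  have e5 : 8 * (L / √p) / p ≤ 8 * g / p := by gcongr
  rw [e2, e3, hηe]
  have h6 : (256 / η + 9) * g ≤ ε * Real.exp (-1) := by
    have h7 := h1.trans (min_le_right _ _)
    rw [le_div_iff₀ (by positivity)] at h7
    linarith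
  have h8 : (256 / η + 9) * g / p ≤ ε * Real.exp (-1) / p := by gcongr
  have e6 : (256 / η + 9) * g / p = 256 / η * g / p + 8 * g / p + g / p := by ring
  have e7 : (1 + ε) * (2 * Real.exp (-1) / p) =
      2 * (1 + ε / 2) * Real.exp (-1) / p + ε * Real.exp (-1) / p := by ring
  rw [e7]
  linarith

theorem deg_asym {ε : ℝ} (hε : 0 < ε) : ∃ p₀ : ℝ, 1 ≤ p₀ ∧ ∀ p : ℝ, p₀ ≤ p →
    ∀ (V : Type) [Fintype V] (H : V → V → V → Prop), Free H → 0 < Fintype.card V →
      ∑ x : V, Real.exp (-(p * miss H x / (Fintype.card V : ℝ) ^ 2)) ≤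
        (1 + ε) * (Real.exp (-1) / (2 * p)) * Fintype.card V := by
  have he1 : 0 < Real.exp (-1) := Real.exp_pos _
  have ls : Tendsto (fun p : ℝ => 2 * Real.log p / p) atTop (𝓝 0) := by
    have h := (Real.isLittleO_log_id_atTop).tendsto_div_nhds_zero
    have h2 := h.const_mul 2
    simp only [mul_zero, id] at h2
    refine h2.congr fun p => by ring
  have lr : Tendsto (fun p : ℝ => 1 / (1 - √(2 * (2 * Real.log p / p)) - 2 * Real.log p / p) +
      2 * Real.exp 1 * p⁻¹) atTop (𝓝 1) := by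
    have h1 : Tendsto (fun p : ℝ => √(2 * (2 * Real.log p / p))) atTop (𝓝 0) := by
      have h2 := (ls.const_mul 2).sqrt
      simpa using h2
    have h3 : Tendsto (fun p : ℝ => 1 - √(2 * (2 * Real.log p / p)) - 2 * Real.log p / p) atTop
        (𝓝 1) := by
      have := (tendsto_const_nhds (x := (1 : ℝ))).sub h1 |>.sub ls
      simpa using this
    have h4 : Tendsto (fun p : ℝ => 1 / (1 - √(2 * (2 * Real.log p / p)) - 2 * Real.log p / p))
        atTop (𝓝 1) := by
      have := (tendsto_const_nhds (x := (1 : ℝ))).div h3 one_ne_zero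
      rw [div_one] at this
      exact this
    have h5 := (tendsto_inv_atTop_zero (𝕜 := ℝ)).const_mul (2 * Real.exp 1)
    have := h4.add h5
    simpa using this
  have hev := (lr.eventually_lt_const (show (1 : ℝ) < 1 + ε by linarith)).and
    ((ls.eventually_le_const (show (0 : ℝ) < 1 / 32 by norm_num)).and
      ((Real.tendsto_log_atTop.eventually_ge_atTop 1).and (eventually_ge_atTop 1)))
  obtain ⟨p₀, hp₀⟩ := eventually_atTop.1 hev
  refine ⟨max p₀ 1, le_max_right _ _, fun p hp V _ H h hV => ?_⟩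
  obtain ⟨h1, h2, h3, h4⟩ := hp₀ p ((le_max_left _ _).trans hp)
  have hp0 : 0 < p := by linarith
  set s : ℝ := 2 * Real.log p / p with hs
  have hs0 : 0 < s := by rw [hs]; positivity
  refine (degree_sum h hs0 h2 hp0 hV).trans ?_
  rw [mul_comm]
  refine mul_le_mul_of_nonneg_right ?_ (Nat.cast_nonneg _)
  have f2 : Real.exp (-(p * s)) = 1 / (p * p) := by
    have f1 : p * s = 2 * Real.log p := by rw [hs]; field_simp
    rw [f1, Real.exp_neg, two_mul, Real.exp_add, Real.exp_log hp0, one_div]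
  rw [f2]
  have hee : Real.exp 1 * Real.exp (-1) = 1 := by rw [← Real.exp_add]; norm_num
  have key : (1 / (1 - √(2 * s) - s) + 2 * Real.exp 1 * p⁻¹) * (Real.exp (-1) / (2 * p)) ≤
      (1 + ε) * (Real.exp (-1) / (2 * p)) :=
    mul_le_mul_of_nonneg_right h1.le (by positivity)
  refine le_trans (le_of_eq ?_) key
  have hr1 : √(2 * s) ≤ 1 / 4 := by
    rw [Real.sqrt_le_left (by norm_num)]
    linarith
  have hρ : 0 < 1 - √(2 * s) - s := by linarith
  have e1 : 1 / (p * p) = 2 * Real.exp 1 * p⁻¹ * (Real.exp (-1) / (2 * p)) := by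
    calc 1 / (p * p) = (Real.exp 1 * Real.exp (-1)) / (p * p) := by rw [hee]
      _ = _ := by field_simp
  rw [e1, add_mul]
  congr 1
  field_simp

end Pool.Agent.Run7.h346.LC
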