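import Mathlib

/-!
Pairs of nearly full codegree in a 3-graph without a complete 3-graph on four vertices.
-/

set_option autoImplicit false
open Finset
open scoped Classical

namespace Pool.Agent.Run7.h346.LC

variable {V : Type} [Fintype V]

/-- the vertices which do not form an edge with `x`, `y` -/
noncomputable def M (H : V → V → V → Prop) (x y : V) : Finset V := univ.filter fun z => ¬ H x y z

/-- their number -/
noncomputable def m (H : V → V → V → Prop) (x y : V) : ℝ := (M H x y).card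

/-- the vertices which have few missing edges with `x` -/
noncomputable def nb (H : V → V → V → Prop) (S : ℝ) (x : V) : Finset V :=
  univ.filter fun y => m H x y ≤ S

/-- their number -/
noncomputable def k (H : V → V → V → Prop) (S : ℝ) (x : V) : ℝ := (nb H S x).card

/-- the neighbours of `y` which form an edge with `x`, `y` -/
noncomputable def ex (H : V → V → V → Prop) (S : ℝ) (x y : V) : ℝ :=
  ((nb H S y).filter fun b => b ∉ M H x y).card

variable {H : V → V → V → Prop} {S : ℝ}

theorem mem_M {x y z : V} : z ∈ M H x y ↔ ¬ H x y z := by simp [M]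
theorem mem_nb {x y : V} : y ∈ nb H S x ↔ m H x y ≤ S := by simp [nb]
theorem m_nonneg (x y : V) : 0 ≤ m H x y := Nat.cast_nonneg _
theorem k_nonneg (x : V) : 0 ≤ k H S x := Nat.cast_nonneg _
theorem ex_nonneg (x y : V) : 0 ≤ ex H S x y := Nat.cast_nonneg _

/-- symmetric, and without a complete subgraph on four vertices -/
structure Free (H : V → V → V → Prop) : Prop where
  s1 : ∀ x y z, H x y z → H y x z
  s2 : ∀ x y z, H x y z → H x z y
  free : ∀ x y z w, ¬ (H x y z ∧ H x y w ∧ H x z w ∧ H y z w)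

theorem M_symm (h : Free H) (x y : V) : M H x y = M H y x := by
  ext z
  rw [mem_M, mem_M]
  exact ⟨fun h1 h2 => h1 (h.s1 _ _ _ h2), fun h1 h2 => h1 (h.s1 _ _ _ h2)⟩

theorem m_symm (h : Free H) (x y : V) : m H x y = m H y x := by
  unfold m
  rw [M_symm h]

theorem nb_symm (h : Free H) {x y : V} (hy : y ∈ nb H S x) : x ∈ nb H S y := by
  rw [mem_nb] at *
  rwa [m_symm h]

/-- indicator -/
noncomputable def ind (P : Prop) : ℝ := if P then 1 else 0

theorem ind_true {P : Prop} (h : P) : ind P = 1 := if_pos h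
theorem ind_false {P : Prop} (h : ¬ P) : ind P = 0 := if_neg h
theorem ind_nonneg (P : Prop) : 0 ≤ ind P := by unfold ind; split_ifs <;> norm_num

/-- real number of elements of a filtered set as a sum -/
theorem card_sum {W : Type} (s : Finset W) (P : W → Prop) [DecidablePred P] :
    ((s.filter P).card : ℝ) = ∑ x ∈ s, ind (P x) := by
  rw [card_filter]
  push_cast
  refine sum_congr rfl fun x _ => ?_
  by_cases hx : P x
  · rw [ind_true hx, if_pos hx]
  · rw [ind_false hx, if_neg hx]

theorem card_filter_le_m (s : Finset V) (x y : V) :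
    ((s.filter fun z => z ∈ M H x y).card : ℝ) ≤ m H x y := by
  unfold m
  exact_mod_cast card_le_card fun z hz => (mem_filter.1 hz).2

/-- the basic count: a family of pairs in which all vertices have at most `K` partners -/
theorem pairs_le (h : Free H) (hS : 0 ≤ S) {K : ℝ} (A : Finset V)
    (hK : ∀ x ∈ A, (((nb H S x).filter (· ∈ A)).card : ℝ) ≤ K) (hK0 : 0 ≤ K) :
    ∑ x ∈ A, (((nb H S x).filter (· ∈ A)).card : ℝ) ≤ 4 * S * K := by
  set r : V → ℝ := fun x => (((nb H S x).filter (· ∈ A)).card : ℝ) with hr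
  set E : Finset (V × V) := (A ×ˢ A).filter fun e => e.2 ∈ nb H S e.1 with hE
  have hEc : (E.card : ℝ) = ∑ x ∈ A, r x := by
    rw [hE, card_sum, sum_product]
    refine sum_congr rfl fun x _ => ?_
    simp only [hr]
    rw [← card_sum]
    congr 2
    ext z
    simp [and_comm]
  have hr0 : ∀ x, 0 ≤ r x := fun x => Nat.cast_nonneg _
  -- the number of members of `E` which start in a given set
  have h1 : ∀ e ∈ E, ∑ f ∈ E, ind (f.1 ∈ M H e.1 e.2) ≤ S * K := by
    intro e he
    rw [hE, sum_filter, sum_product]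
    have he2 : m H e.1 e.2 ≤ S := mem_nb.1 (mem_filter.1 he).2
    have h2 : ∀ x ∈ A, ∑ y ∈ A, (if y ∈ nb H S x then
        ind (x ∈ M H e.1 e.2) else 0) ≤
        ind (x ∈ M H e.1 e.2) * K := by
      intro x hx
      rw [← sum_filter, sum_const, nsmul_eq_mul, mul_comm]
      refine mul_le_mul_of_nonneg_left ?_ (ind_nonneg _)
      refine le_trans (le_of_eq ?_) (hK x hx)
      congr 2
      ext z
      simp [and_comm]
    refine (sum_le_sum h2).trans ?_
    rw [← sum_mul]
    refine mul_le_mul_of_nonneg_right ?_ hK0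
    rw [← card_sum]
    exact (card_filter_le_m A e.1 e.2).trans he2
  have h1' : ∀ e ∈ E, ∑ f ∈ E, ind (f.2 ∈ M H e.1 e.2) ≤ S * K := by
    intro e he
    refine le_trans (le_of_eq ?_) (h1 e he)
    refine sum_bij' (fun f _ => (f.2, f.1)) (fun f _ => (f.2, f.1)) ?_ ?_ ?_ ?_ ?_
    · intro f hf
      rw [hE, mem_filter, mem_product] at hf ⊢
      exact ⟨⟨hf.1.2, hf.1.1⟩, nb_symm h hf.2⟩
    · intro f hf
      rw [hE, mem_filter, mem_product] at hf ⊢
      exact ⟨⟨hf.1.2, hf.1.1⟩, nb_symm h hf.2⟩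
    · intro f _; rfl
    · intro f _; rfl
    · intro f _; rfl
  have h2 : ∀ e ∈ E, ∀ f ∈ E, (1 : ℝ) ≤
      ind (f.1 ∈ M H e.1 e.2) + ind (f.2 ∈ M H e.1 e.2) +
      ind (e.1 ∈ M H f.1 f.2) + ind (e.2 ∈ M H f.1 f.2) := by
    intro e _ f _
    by_contra hcon
    have a1 : H e.1 e.2 f.1 := by
      by_contra h0
      rw [ind_true (mem_M.2 h0)] at hcon
      apply hcon
      have := ind_nonneg
      linarith [this (f.2 ∈ M H e.1 e.2), this (e.1 ∈ M H f.1 f.2), this (e.2 ∈ M H f.1 f.2)]
    have a2 : H e.1 e.2 f.2 := by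
      by_contra h0
      rw [ind_true (mem_M.2 h0 : f.2 ∈ M H e.1 e.2)] at hcon
      apply hcon
      have := ind_nonneg
      linarith [this (f.1 ∈ M H e.1 e.2), this (e.1 ∈ M H f.1 f.2), this (e.2 ∈ M H f.1 f.2)]
    have a3 : H f.1 f.2 e.1 := by
      by_contra h0
      rw [ind_true (mem_M.2 h0 : e.1 ∈ M H f.1 f.2)] at hcon
      apply hcon
      have := ind_nonneg
      linarith [this (f.1 ∈ M H e.1 e.2), this (f.2 ∈ M H e.1 e.2), this (e.2 ∈ M H f.1 f.2)]
    have a4 : H f.1 f.2 e.2 := by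
      by_contra h0
      rw [ind_true (mem_M.2 h0 : e.2 ∈ M H f.1 f.2)] at hcon
      apply hcon
      have := ind_nonneg
      linarith [this (f.1 ∈ M H e.1 e.2), this (f.2 ∈ M H e.1 e.2), this (e.1 ∈ M H f.1 f.2)]
    refine h.free e.1 e.2 f.1 f.2 ⟨a1, a2, ?_, ?_⟩
    · exact h.s1 _ _ _ (h.s2 _ _ _ a3)
    · exact h.s1 _ _ _ (h.s2 _ _ _ a4)
  have h3 : (E.card : ℝ) * E.card ≤ (E.card : ℝ) * (4 * (S * K)) := by
    have e1 : (E.card : ℝ) * E.card = ∑ e ∈ E, ∑ f ∈ E, (1 : ℝ) := by
      simp [sum_const, nsmul_eq_mul]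
    rw [e1]
    refine (sum_le_sum fun e he => sum_le_sum fun f hf => h2 e he f hf).trans ?_
    simp only [sum_add_distrib]
    have e2 : ∑ e ∈ E, ∑ f ∈ E, ind (f.1 ∈ M H e.1 e.2) ≤ E.card * (S * K) := by
      refine (sum_le_sum h1).trans ?_
      rw [sum_const, nsmul_eq_mul]
    have e3 : ∑ e ∈ E, ∑ f ∈ E, ind (f.2 ∈ M H e.1 e.2) ≤ E.card * (S * K) := by
      refine (sum_le_sum h1').trans ?_
      rw [sum_const, nsmul_eq_mul]
    have e4 : ∑ e ∈ E, ∑ f ∈ E, ind (e.1 ∈ M H f.1 f.2) ≤ E.card * (S * K) := by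
      rw [sum_comm]
      exact e2
    have e5 : ∑ e ∈ E, ∑ f ∈ E, ind (e.2 ∈ M H f.1 f.2) ≤ E.card * (S * K) := by
      rw [sum_comm]
      exact e3
    linarith
  rw [← hEc]
  rcases eq_or_lt_of_le (Nat.cast_nonneg (α := ℝ) E.card) with h0 | h0
  · rw [← h0]
    positivity
  · have := le_of_mul_le_mul_left h3 h0
    linarith

/-- all pairs -/
theorem all_pairs (h : Free H) (hS : 0 ≤ S) :
    ∑ x : V, k H S x ≤ 4 * S * Fintype.card V := by
  have h1 := pairs_le (S := S) (K := Fintype.card V) h hS (univ : Finset V) (fun x _ => by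
    exact_mod_cast card_le_univ _) (Nat.cast_nonneg _)
  simpa [k] using h1

/-- two adjacent vertices do not both have large degree -/
theorem two_deg (h : Free H) {x y : V} (hxy : y ∈ nb H S x) :
    k H S x * k H S y ≤ 2 * S * (k H S x + k H S y) := by
  have hm := mem_nb.1 hxy
  have e1 : k H S x * k H S y = ∑ a ∈ nb H S x, ∑ b ∈ nb H S y, (1 : ℝ) := by
    simp [k, sum_const, nsmul_eq_mul]
  have nn := ind_nonneg
  have h2 : ∀ a b : V, (1 : ℝ) ≤
      ind (a ∈ M H x y) + ind (b ∈ M H x y) +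
      ind (b ∈ M H x a) + ind (a ∈ M H y b) := by
    intro a b
    have n1 := nn (a ∈ M H x y)
    have n2 := nn (b ∈ M H x y)
    have n3 := nn (b ∈ M H x a)
    have n4 := nn (a ∈ M H y b)
    by_cases c1 : a ∈ M H x y
    · rw [ind_true c1]; linarith
    by_cases c2 : b ∈ M H x y
    · rw [ind_true c2]; linarith
    by_cases c3 : b ∈ M H x a
    · rw [ind_true c3]; linarith
    by_cases c4 : a ∈ M H y b
    · rw [ind_true c4]; linarith
    exfalso
    rw [mem_M, not_not] at c1 c2 c3 c4
    exact h.free x y a b ⟨c1, c2, c3, h.s2 _ _ _ c4⟩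
  rw [e1]
  refine (sum_le_sum fun a _ => sum_le_sum fun b _ => h2 a b).trans ?_
  simp only [sum_add_distrib]
  have f1 : ∑ a ∈ nb H S x, ∑ b ∈ nb H S y, ind (a ∈ M H x y) ≤
      k H S y * S := by
    rw [sum_comm, sum_const, nsmul_eq_mul, ← card_sum]
    exact mul_le_mul_of_nonneg_left ((card_filter_le_m _ x y).trans hm) (Nat.cast_nonneg _)
  have f2 : ∑ a ∈ nb H S x, ∑ b ∈ nb H S y, ind (b ∈ M H x y) ≤
      k H S x * S := by
    rw [sum_const, nsmul_eq_mul, ← card_sum]
    exact mul_le_mul_of_nonneg_left ((card_filter_le_m _ x y).trans hm) (Nat.cast_nonneg _)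
  have f3 : ∑ a ∈ nb H S x, ∑ b ∈ nb H S y, ind (b ∈ M H x a) ≤
      k H S x * S := by
    have : ∀ a ∈ nb H S x, ∑ b ∈ nb H S y, ind (b ∈ M H x a) ≤ S := by
      intro a ha
      rw [← card_sum]
      exact (card_filter_le_m _ x a).trans (mem_nb.1 ha)
    refine (sum_le_sum this).trans ?_
    rw [sum_const, nsmul_eq_mul]
    rfl
  have f4 : ∑ a ∈ nb H S x, ∑ b ∈ nb H S y, ind (a ∈ M H y b) ≤
      k H S y * S := by
    rw [sum_comm]
    have : ∀ b ∈ nb H S y, ∑ a ∈ nb H S x, ind (a ∈ M H y b) ≤ S := by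
      intro b hb
      rw [← card_sum]
      exact (card_filter_le_m _ y b).trans (mem_nb.1 hb)
    refine (sum_le_sum this).trans ?_
    rw [sum_const, nsmul_eq_mul]
    rfl
  linarith

/-- the neighbours of a neighbour of a vertex of large degree are nearly all missing -/
theorem path_count (h : Free H) (hS : 0 ≤ S) {x : V} (hx : 4 * S ≤ k H S x)
    (hx0 : 0 < k H S x) : ∑ y ∈ nb H S x, ex H S x y ≤ 4 * S ^ 2 := by
  set q : V → ℝ := fun b => (((nb H S x).filter fun a => b ∈ M H x a).card : ℝ) with hq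
  set T : Finset V := univ.filter fun b => k H S x - 2 * S ≤ q b with hT
  have nn := ind_nonneg
  have h1 : ∀ y ∈ nb H S x, ∀ b ∈ nb H S y, b ∉ M H x y → b ∈ T := by
    intro y hy b hb hbM
    rw [hT, mem_filter]
    refine ⟨mem_univ _, ?_⟩
    have h2 : k H S x ≤ ∑ a ∈ nb H S x, (ind (a ∈ M H x y) +
        ind (a ∈ M H y b) + ind (b ∈ M H x a)) := by
      have e1 : k H S x = ∑ a ∈ nb H S x, (1 : ℝ) := by simp [k]
      rw [e1]
      refine sum_le_sum fun a _ => ?_
      have n1 := nn (a ∈ M H x y)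
      have n3 := nn (b ∈ M H x a)
      have n4 := nn (a ∈ M H y b)
      by_cases c1 : a ∈ M H x y
      · rw [ind_true c1]; linarith
      by_cases c3 : b ∈ M H x a
      · rw [ind_true c3]; linarith
      by_cases c4 : a ∈ M H y b
      · rw [ind_true c4]; linarith
      exfalso
      rw [mem_M, not_not] at c1 c3 c4 hbM
      exact h.free x y a b ⟨c1, hbM, c3, h.s2 _ _ _ c4⟩
    rw [sum_add_distrib, sum_add_distrib, ← card_sum, ← card_sum, ← card_sum] at h2
    have f1 := (card_filter_le_m (H := H) (nb H S x) x y).trans (mem_nb.1 hy)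
    have f2 := (card_filter_le_m (H := H) (nb H S x) y b).trans (mem_nb.1 hb)
    have : (((nb H S x).filter fun a => b ∈ M H x a).card : ℝ) = q b := rfl
    linarith
  have h3 : (T.card : ℝ) ≤ 2 * S := by
    have h4 : (T.card : ℝ) * (k H S x - 2 * S) ≤ S * k H S x := by
      calc (T.card : ℝ) * (k H S x - 2 * S) = ∑ b ∈ T, (k H S x - 2 * S) := by
            rw [sum_const, nsmul_eq_mul]
        _ ≤ ∑ b ∈ T, q b := sum_le_sum fun b hb => (mem_filter.1 hb).2
        _ ≤ ∑ b : V, q b := sum_le_sum_of_subset_of_nonneg (subset_univ _) fun _ _ _ =>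
            Nat.cast_nonneg _
        _ = ∑ a ∈ nb H S x, m H x a := by
            simp only [hq, card_sum]
            rw [sum_comm]
            refine sum_congr rfl fun a _ => ?_
            rw [← card_sum]
            unfold m
            congr 2
            ext z
            simp
        _ ≤ ∑ a ∈ nb H S x, S := sum_le_sum fun a ha => mem_nb.1 ha
        _ = S * k H S x := by rw [sum_const, nsmul_eq_mul, mul_comm]; rfl
    have h5 : (T.card : ℝ) * (k H S x / 2) ≤ S * k H S x :=
      (mul_le_mul_of_nonneg_left (by linarith) (Nat.cast_nonneg _)).trans h4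
    have h6 : (T.card : ℝ) * k H S x ≤ (2 * S) * k H S x := by linarith
    exact le_of_mul_le_mul_right h6 hx0
  have h4 : ∀ b ∈ T, (((nb H S x).filter fun y => b ∉ M H x y).card : ℝ) ≤ 2 * S := by
    intro b hb
    have h5 := (mem_filter.1 hb).2
    have h6 : (((nb H S x).filter fun y => b ∈ M H x y).card : ℝ) +
        ((nb H S x).filter fun y => ¬ b ∈ M H x y).card = k H S x := by
      unfold k
      rw [← card_filter_add_card_filter_not (s := nb H S x) (fun y => b ∈ M H x y)]
      push_cast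
      rfl
    have : (((nb H S x).filter fun a => b ∈ M H x a).card : ℝ) = q b := rfl
    linarith
  calc ∑ y ∈ nb H S x, ex H S x y
      = ∑ y ∈ nb H S x, ∑ b ∈ nb H S y, ind (b ∉ M H x y) := by
        refine sum_congr rfl fun y _ => ?_
        rw [ex, card_sum]
    _ ≤ ∑ y ∈ nb H S x, ∑ b ∈ T, ind (b ∉ M H x y) := by
        refine sum_le_sum fun y hy => ?_
        rw [← card_sum, ← card_sum]
        refine Nat.cast_le.2 (card_le_card fun b hb => ?_)
        rw [mem_filter] at hb ⊢
        exact ⟨h1 y hy b hb.1 hb.2, hb.2⟩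
    _ = ∑ b ∈ T, (((nb H S x).filter fun y => b ∉ M H x y).card : ℝ) := by
        rw [sum_comm]
        refine sum_congr rfl fun b _ => ?_
        rw [← card_sum]
    _ ≤ ∑ b ∈ T, 2 * S := sum_le_sum h4
    _ = T.card * (2 * S) := by rw [sum_const, nsmul_eq_mul]
    _ ≤ 2 * S * (2 * S) := mul_le_mul_of_nonneg_right h3 (by linarith)
    _ = 4 * S ^ 2 := by ring

theorem k_le (x y : V) : k H S y ≤ m H x y + ex H S x y := by
  unfold k ex m
  have h1 := card_filter_add_card_filter_not (s := nb H S y) (fun b => b ∈ M H x y)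
  have h2 : ((nb H S y).filter fun b => b ∈ M H x y).card ≤ (M H x y).card :=
    card_le_card fun b hb => (mem_filter.1 hb).2
  have h3 : (nb H S y).card ≤ (M H x y).card + ((nb H S y).filter fun b => b ∉ M H x y).card := by
    have : ((nb H S y).filter fun b => ¬ b ∈ M H x y).card =
      ((nb H S y).filter fun b => b ∉ M H x y).card := rfl
    omega
  exact_mod_cast h3

end Pool.Agent.Run7.h346.LC
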