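import Pool.Agent.Run7.h346.LC.Sum

/-!
Vertices of nearly full degree in a 3-graph without a complete 3-graph on four vertices.
-/

set_option autoImplicit false
open Finset
open scoped Classical

namespace Pool.Agent.Run7.h346.LC

variable {V : Type} [Fintype V] {H : V → V → V → Prop}

/-- number of ordered pairs which do not form an edge with `x` -/
noncomputable def miss (H : V → V → V → Prop) (x : V) : ℝ := ∑ y : V, m H x y

theorem miss_nonneg (x : V) : 0 ≤ miss H x := sum_nonneg fun _ _ => m_nonneg _ _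

theorem m_ind (x y : V) : m H x y = ∑ z : V, ind (¬ H x y z) := by
  unfold m M
  rw [card_sum]

theorem codeg_ind (x y : V) : (Fintype.card V : ℝ) - m H x y = ∑ z : V, ind (H x y z) := by
  rw [m_ind, sub_eq_iff_eq_add, ← sum_add_distrib, ← card_univ, ← nsmul_one, ← sum_const]
  refine sum_congr rfl fun z _ => ?_
  by_cases hz : H x y z
  · rw [ind_true hz, ind_false (not_not.2 hz)]; norm_num
  · rw [ind_false hz, ind_true hz]; norm_num

theorem ind_le_one (P : Prop) : ind P ≤ 1 := by unfold ind; split_ifs <;> norm_num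

/-- the codegree of two vertices of nearly full degree is small -/
theorem codeg_sq (h : Free H) (u v : V) :
    ((Fintype.card V : ℝ) - m H u v) ^ 2 ≤ miss H u + miss H v := by
  rw [codeg_ind, sq, sum_mul_sum]
  have h1 : ∀ a b : V, ind (H u v a) * ind (H u v b) ≤ ind (¬ H u a b) + ind (¬ H v a b) := by
    intro a b
    have n1 := ind_nonneg (¬ H u a b)
    have n2 := ind_nonneg (¬ H v a b)
    by_cases c1 : H u v a
    · by_cases c2 : H u v b
      · rw [ind_true c1, ind_true c2]
        by_cases c3 : H u a b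
        · by_cases c4 : H v a b
          · exact absurd ⟨c1, c2, c3, c4⟩ (h.free u v a b)
          · rw [ind_true c4]; linarith
        · rw [ind_true c3]; linarith
      · rw [ind_false c2]; linarith
    · rw [ind_false c1]; linarith
  refine (sum_le_sum fun a _ => sum_le_sum fun b _ => h1 a b).trans ?_
  simp only [sum_add_distrib]
  unfold miss
  simp only [m_ind]
  exact le_rfl

/-- the sum over the vertices -/
theorem degree_sum (h : Free H) {s p : ℝ} (hs : 0 < s) (hs1 : s ≤ 1 / 32) (hp : 0 < p)
    (hV : 0 < Fintype.card V) :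
    ∑ x : V, Real.exp (-(p * miss H x / (Fintype.card V : ℝ) ^ 2)) ≤
      (Fintype.card V : ℝ) * (Real.exp (-1) / (2 * p * (1 - √(2 * s) - s)) + Real.exp (-(p * s))) := by
  set N : ℝ := ((Fintype.card V : ℕ) : ℝ) with hN
  have hN0 : 0 < N := by rw [hN]; exact_mod_cast hV
  set r : ℝ := √(2 * s) with hr
  have hr0 : 0 ≤ r := Real.sqrt_nonneg _
  have hr1 : r ≤ 1 / 4 := by
    rw [hr, Real.sqrt_le_left (by norm_num)]
    linarith
  have hr2 : r ^ 2 = 2 * s := Real.sq_sqrt (by positivity)
  set B : Finset V := univ.filter fun x => miss H x ≤ s * N ^ 2 with hB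
  set b : ℝ := (B.card : ℝ) / N with hb
  have hb0 : 0 ≤ b := by positivity
  have hb1 : b ≤ 1 := by
    rw [hb, div_le_one hN0, hN]
    exact_mod_cast card_le_univ _
  have hBb : (B.card : ℝ) = b * N := by rw [hb]; field_simp
  have h1 : ∀ x ∈ B, ∀ y ∈ B, N * (1 - r) ≤ m H x y := by
    intro x hx y hy
    have h2 := codeg_sq h x y
    have h3 := (mem_filter.1 hx).2
    have h4 := (mem_filter.1 hy).2
    have h5 : (N - m H x y) ^ 2 ≤ (r * N) ^ 2 := by
      rw [mul_pow, hr2]
      linarith
    have h6 := abs_le_of_sq_le_sq h5 (by positivity)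
    linarith [(abs_le.1 h6).2]
  have h2 : ∀ x ∈ B, (2 * b * (1 - r) - b ^ 2) * N ^ 2 ≤ miss H x := by
    intro x hx
    have e1 : miss H x = ∑ y : V, ∑ z : V, ind (¬ H x y z) := by
      unfold miss
      simp only [m_ind]
    have e2 : ∀ y z : V, ind (y ∈ B) * ind (¬ H x y z) + ind (z ∈ B) * ind (¬ H x y z) -
        ind (y ∈ B) * ind (z ∈ B) ≤ ind (¬ H x y z) := by
      intro y z
      have n0 := ind_nonneg (¬ H x y z)
      have n1 := ind_le_one (¬ H x y z)
      by_cases c1 : y ∈ B
      · by_cases c2 : z ∈ B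
        · rw [ind_true c1, ind_true c2]; linarith
        · rw [ind_true c1, ind_false c2]; linarith
      · by_cases c2 : z ∈ B
        · rw [ind_false c1, ind_true c2]; linarith
        · rw [ind_false c1, ind_false c2]; linarith
    have e3 : ∑ y : V, ∑ z : V, (ind (y ∈ B) * ind (¬ H x y z) + ind (z ∈ B) * ind (¬ H x y z) -
        ind (y ∈ B) * ind (z ∈ B)) ≤ miss H x := by
      rw [e1]
      exact sum_le_sum fun y _ => sum_le_sum fun z _ => e2 y z
    have e4 : ∑ y : V, ∑ z : V, ind (y ∈ B) * ind (¬ H x y z) = ∑ y ∈ B, m H x y := by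
      simp only [← mul_sum, ← m_ind]
      rw [← sum_filter_add_sum_filter_not univ (fun y => y ∈ B)]
      have f1 : ∑ y ∈ univ.filter (fun y => ¬ y ∈ B), ind (y ∈ B) * m H x y = 0 :=
        sum_eq_zero fun y hy => by rw [ind_false (mem_filter.1 hy).2, zero_mul]
      rw [f1, add_zero]
      have f2 : (univ.filter fun y => y ∈ B) = B := by ext; simp
      rw [f2]
      exact sum_congr rfl fun y hy => by rw [ind_true hy, one_mul]
    have e5 : ∑ y : V, ∑ z : V, ind (z ∈ B) * ind (¬ H x y z) = ∑ y ∈ B, m H x y := by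
      rw [← e4, sum_comm]
      refine sum_congr rfl fun y _ => sum_congr rfl fun z _ => ?_
      have : H x z y ↔ H x y z := ⟨h.s2 _ _ _, h.s2 _ _ _⟩
      rw [this]
    have e6 : ∑ y : V, ∑ z : V, ind (y ∈ B) * ind (z ∈ B) = (b * N) ^ 2 := by
      rw [← sum_mul_sum, ← hBb, sq]
      have : (B.card : ℝ) = ∑ i : V, ind (i ∈ B) := by
        rw [← card_sum]
        congr 2
        ext; simp
      rw [← this]
    have e7 : b * N * (N * (1 - r)) ≤ ∑ y ∈ B, m H x y := by
      rw [← hBb, ← nsmul_eq_mul, ← sum_const]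
      exact sum_le_sum fun y hy => h1 x hx y hy
    simp only [sum_sub_distrib, sum_add_distrib] at e3
    rw [e4, e5, e6] at e3
    nlinarith
  set ρ : ℝ := 1 - r - s with hρ
  have hρ0 : 0 < ρ := by rw [hρ]; linarith
  have h3 : ∀ x ∈ B, 2 * b * ρ * N ^ 2 ≤ miss H x := by
    intro x hx
    have h4 := h2 x hx
    have h5 := (mem_filter.1 hx).2
    have hN2 : 0 < N ^ 2 := by positivity
    have h6 : 2 * b * (1 - r) - b ^ 2 ≤ s := by
      by_contra hcon
      rw [not_le] at hcon
      have := mul_lt_mul_of_pos_right hcon hN2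
      linarith
    have h7 : b ≤ 2 * s := by
      have h8 : b ^ 2 ≤ b := by nlinarith
      have h9 : b * (1 / 2) ≤ b * (1 - 2 * r) := mul_le_mul_of_nonneg_left (by linarith) hb0
      nlinarith
    refine le_trans ?_ h4
    refine mul_le_mul_of_nonneg_right ?_ hN2.le
    rw [hρ]
    nlinarith
  rw [← sum_filter_add_sum_filter_not univ (fun x => x ∈ B)]
  have f2 : (univ.filter fun y => y ∈ B) = B := by ext; simp
  rw [f2]
  have h4 : ∑ x ∈ B, Real.exp (-(p * miss H x / N ^ 2)) ≤ N * (Real.exp (-1) / (2 * p * ρ)) := by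
    calc ∑ x ∈ B, Real.exp (-(p * miss H x / N ^ 2))
        ≤ ∑ x ∈ B, Real.exp (-(2 * p * ρ * b)) := by
          refine sum_le_sum fun x hx => Real.exp_le_exp.2 (neg_le_neg ?_)
          rw [le_div_iff₀ (by positivity)]
          have := mul_le_mul_of_nonneg_left (h3 x hx) hp.le
          linarith
      _ = b * N * Real.exp (-(2 * p * ρ * b)) := by rw [sum_const, nsmul_eq_mul, hBb]
      _ = N / (2 * p * ρ) * ((2 * p * ρ * b) * Real.exp (-(2 * p * ρ * b))) := by
          field_simp
      _ ≤ N / (2 * p * ρ) * Real.exp (-1) :=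
          mul_le_mul_of_nonneg_left (t_exp _) (by positivity)
      _ = _ := by ring
  have h5 : ∑ x ∈ univ.filter (fun x => ¬ x ∈ B), Real.exp (-(p * miss H x / N ^ 2)) ≤
      N * Real.exp (-(p * s)) := by
    calc ∑ x ∈ univ.filter (fun x => ¬ x ∈ B), Real.exp (-(p * miss H x / N ^ 2))
        ≤ ∑ x ∈ univ.filter (fun x => ¬ x ∈ B), Real.exp (-(p * s)) := by
          refine sum_le_sum fun x hx => Real.exp_le_exp.2 (neg_le_neg ?_)
          have h6 := (mem_filter.1 hx).2
          rw [hB, mem_filter, not_and, not_le] at h6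
          have h7 := h6 (mem_univ _)
          rw [mul_div_assoc]
          refine mul_le_mul_of_nonneg_left ?_ hp.le
          rw [le_div_iff₀ (by positivity)]
          exact h7.le
      _ ≤ N * Real.exp (-(p * s)) := by
          rw [sum_const, nsmul_eq_mul]
          refine mul_le_mul_of_nonneg_right ?_ (Real.exp_pos _).le
          rw [hN]
          exact_mod_cast card_le_univ _
  rw [mul_add]
  exact add_le_add h4 h5

end Pool.Agent.Run7.h346.LC
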