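import Pool.Agent.Run7.h346.LC.Core

/-!
Sums over the pairs of vertices of a 3-graph without a complete 3-graph on four vertices.
-/

set_option autoImplicit false
open Finset
open scoped Classical

namespace Pool.Agent.Run7.h346.LC

variable {V : Type} [Fintype V] {H : V → V → V → Prop}

theorem t_exp (t : ℝ) : t * Real.exp (-t) ≤ Real.exp (-1) := by
  have h1 := Real.add_one_le_exp (t - 1)
  have h2 : t * Real.exp (-t) ≤ Real.exp (t - 1) * Real.exp (-t) :=
    mul_le_mul_of_nonneg_right (by linarith) (Real.exp_pos _).le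
  rw [← Real.exp_add] at h2
  have : t - 1 + -t = -1 := by ring
  rwa [this] at h2

/-- the vertices with more than `K` partners -/
noncomputable def Cc (H : V → V → V → Prop) (S K : ℝ) : Finset V := univ.filter fun x => K < k H S x

theorem card_C (h : Free H) {S K : ℝ} (hS : 0 ≤ S) :
    ((Cc H S K).card : ℝ) * K ≤ 4 * S * Fintype.card V := by
  refine le_trans ?_ (all_pairs h hS)
  calc ((Cc H S K).card : ℝ) * K = ∑ x ∈ Cc H S K, K := by rw [sum_const, nsmul_eq_mul]
    _ ≤ ∑ x ∈ Cc H S K, k H S x := sum_le_sum fun x hx => (mem_filter.1 hx).2.le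
    _ ≤ ∑ x : V, k H S x := sum_le_sum_of_subset_of_nonneg (subset_univ _) fun _ _ _ => k_nonneg _

theorem swap_nb (h : Free H) (S : ℝ) (A : Finset V) (f : V → V → ℝ) :
    ∑ x ∈ A, ∑ y ∈ nb H S x, f x y = ∑ y : V, ∑ x ∈ (nb H S y).filter (· ∈ A), f x y := by
  have h1 : ∀ x, ∑ y ∈ nb H S x, f x y = ∑ y : V, if y ∈ nb H S x then f x y else 0 := by
    intro x
    rw [← sum_filter]
    congr 1
    ext z; simp
  simp only [h1]
  rw [sum_comm]
  refine sum_congr rfl fun y _ => ?_
  rw [← sum_filter]
  refine sum_congr ?_ fun _ _ => rfl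
  ext x
  simp only [mem_filter]
  exact ⟨fun hx => ⟨nb_symm h hx.2, hx.1⟩, fun hx => ⟨hx.2, nb_symm h hx.1⟩⟩

theorem path_sum (h : Free H) {S K : ℝ} (hS : 0 ≤ S) (hK : 4 * S ≤ K) (hK0 : 0 ≤ K) :
    ∑ x ∈ Cc H S K, ∑ y ∈ nb H S x, ex H S x y ≤ (Cc H S K).card * (4 * S ^ 2) := by
  rw [← nsmul_eq_mul, ← sum_const]
  refine sum_le_sum fun x hx => ?_
  have hx' := (mem_filter.1 hx).2
  exact path_count h hS (hK.trans hx'.le) (hK0.trans_lt hx')

/-- **The weighted sum.** -/
theorem weighted (h : Free H) {σ l η p : ℝ} (hσ : 0 < σ) (hl : 4 * σ ≤ l) (hη : 0 < η)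
    (hp : 0 < p) (hV : 0 < Fintype.card V) :
    ∑ x : V, ∑ y : V, Real.exp (-(p * m H x y / Fintype.card V)) ≤
      (Fintype.card V : ℝ) ^ 2 * (2 * Real.exp η * Real.exp (-1) / p + 32 * p * σ ^ 3 / (η * l) +
        4 * σ * l + Real.exp (-(p * σ))) := by
  set N : ℝ := ((Fintype.card V : ℕ) : ℝ) with hN
  have hN0 : 0 < N := by rw [hN]; exact_mod_cast hV
  have hl0 : 0 < l := by linarith
  set S : ℝ := σ * N with hSdef
  set K : ℝ := l * N with hKdef
  have hS : 0 < S := mul_pos hσ hN0
  have hK0 : 0 < K := mul_pos hl0 hN0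
  have hK : 4 * S ≤ K := by
    rw [hSdef, hKdef]
    nlinarith
  set w : V → V → ℝ := fun x y => Real.exp (-(p * m H x y / N)) with hw
  have hw0 : ∀ x y, 0 ≤ w x y := fun x y => (Real.exp_pos _).le
  have hw1 : ∀ x y, w x y ≤ 1 := fun x y => by
    rw [hw]
    apply Real.exp_le_one_iff.2
    have : 0 ≤ p * m H x y / N := div_nonneg (mul_nonneg hp.le (m_nonneg _ _)) hN0.le
    linarith
  have hws : ∀ x y, w x y = w y x := fun x y => by simp only [hw]; rw [m_symm h]
  -- the pairs which are not adjacent
  have h1 : ∀ x : V, ∑ y : V, w x y ≤ ∑ y ∈ nb H S x, w x y + N * Real.exp (-(p * σ)) := by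
    intro x
    rw [← sum_filter_add_sum_filter_not univ (fun y => y ∈ nb H S x)]
    have e1 : (univ.filter fun y => y ∈ nb H S x) = nb H S x := by ext; simp
    rw [e1]
    refine add_le_add le_rfl ?_
    calc ∑ y ∈ univ.filter (fun y => ¬ y ∈ nb H S x), w x y
        ≤ ∑ y ∈ univ.filter (fun y => ¬ y ∈ nb H S x), Real.exp (-(p * σ)) := by
          refine sum_le_sum fun y hy => ?_
          have h2 := (mem_filter.1 hy).2
          rw [mem_nb, not_le] at h2
          refine Real.exp_le_exp.2 (neg_le_neg ?_)
          rw [mul_div_assoc]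
          refine mul_le_mul_of_nonneg_left ?_ hp.le
          rw [le_div_iff₀ hN0]
          exact h2.le
      _ ≤ N * Real.exp (-(p * σ)) := by
          rw [sum_const, nsmul_eq_mul]
          refine mul_le_mul_of_nonneg_right ?_ (Real.exp_pos _).le
          rw [hN]
          exact_mod_cast card_le_univ _
  have h2 : ∑ x : V, ∑ y : V, w x y ≤ ∑ x : V, ∑ y ∈ nb H S x, w x y +
      N ^ 2 * Real.exp (-(p * σ)) := by
    refine (sum_le_sum fun x _ => h1 x).trans ?_
    rw [sum_add_distrib, sum_const, nsmul_eq_mul, card_univ, ← hN]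
    apply le_of_eq
    ring
  -- the main sum
  set C := Cc H S K with hC
  have hA : ∑ x ∈ C, ∑ y ∈ nb H S x, w x y ≤
      N ^ 2 * (Real.exp η * Real.exp (-1) / p + 16 * p * σ ^ 3 / (η * l)) := by
    have hpt : ∀ x y, w x y ≤ Real.exp η * Real.exp (-(p * k H S y / N)) +
        ex H S x y * (p / (η * N)) := by
      intro x y
      have hc : 0 ≤ p / (η * N) := by positivity
      by_cases he : ex H S x y * p ≤ η * N
      · have h3 : -(p * m H x y / N) ≤ η + -(p * k H S y / N) := by
          have h4 := k_le (H := H) (S := S) x y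
          have h5 : p * k H S y / N ≤ p * m H x y / N + p * ex H S x y / N := by
            rw [← add_div, ← mul_add]
            gcongr
          have h6 : p * ex H S x y / N ≤ η := by
            rw [div_le_iff₀ hN0]
            linarith
          linarith
        have h7 := Real.exp_le_exp.2 h3
        rw [Real.exp_add] at h7
        have := mul_nonneg (ex_nonneg (H := H) (S := S) x y) hc
        linarith
      · rw [not_le] at he
        have h3 : 1 ≤ ex H S x y * (p / (η * N)) := by
          rw [← mul_div_assoc, le_div_iff₀ (by positivity)]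
          linarith
        have h4 : 0 ≤ Real.exp η * Real.exp (-(p * k H S y / N)) := by positivity
        linarith [hw1 x y]
    calc ∑ x ∈ C, ∑ y ∈ nb H S x, w x y
        ≤ ∑ x ∈ C, ∑ y ∈ nb H S x, (Real.exp η * Real.exp (-(p * k H S y / N)) +
          ex H S x y * (p / (η * N))) := sum_le_sum fun x _ => sum_le_sum fun y _ => hpt x y
      _ = ∑ x ∈ C, ∑ y ∈ nb H S x, Real.exp η * Real.exp (-(p * k H S y / N)) +
          (∑ x ∈ C, ∑ y ∈ nb H S x, ex H S x y) * (p / (η * N)) := by
          simp only [sum_add_distrib, sum_mul]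
      _ ≤ N ^ 2 * (Real.exp η * Real.exp (-1) / p) + N ^ 2 * (16 * p * σ ^ 3 / (η * l)) := by
          refine add_le_add ?_ ?_
          · rw [swap_nb h]
            calc ∑ y : V, ∑ x ∈ (nb H S y).filter (· ∈ C),
                  Real.exp η * Real.exp (-(p * k H S y / N))
                ≤ ∑ y : V, Real.exp η * (N / p * Real.exp (-1)) := by
                  refine sum_le_sum fun y _ => ?_
                  rw [sum_const, nsmul_eq_mul]
                  have h3 : (((nb H S y).filter (· ∈ C)).card : ℝ) ≤ k H S y := by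
                    unfold k
                    exact_mod_cast card_le_card (filter_subset _ _)
                  have h4 : k H S y * Real.exp (-(p * k H S y / N)) ≤ N / p * Real.exp (-1) := by
                    have h5 := t_exp (p * k H S y / N)
                    have h6 : k H S y = N / p * (p * k H S y / N) := by field_simp
                    calc k H S y * Real.exp (-(p * k H S y / N))
                        = N / p * ((p * k H S y / N) * Real.exp (-(p * k H S y / N))) := by
                          rw [← mul_assoc, ← h6]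
                      _ ≤ _ := mul_le_mul_of_nonneg_left h5 (by positivity)
                  calc (((nb H S y).filter (· ∈ C)).card : ℝ) *
                        (Real.exp η * Real.exp (-(p * k H S y / N)))
                      ≤ k H S y * (Real.exp η * Real.exp (-(p * k H S y / N))) :=
                        mul_le_mul_of_nonneg_right h3 (by positivity)
                    _ = Real.exp η * (k H S y * Real.exp (-(p * k H S y / N))) := by ring
                    _ ≤ _ := mul_le_mul_of_nonneg_left h4 (Real.exp_pos _).le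
              _ = N ^ 2 * (Real.exp η * Real.exp (-1) / p) := by
                  rw [sum_const, nsmul_eq_mul, card_univ, ← hN]
                  ring
          · have h3 := path_sum h hS.le hK hK0.le
            have h4 := card_C (K := K) h hS.le
            rw [← hN] at h4
            have h5 : ((Cc H S K).card : ℝ) ≤ 4 * σ * N / l := by
              rw [le_div_iff₀ hl0]
              have h6 : ((Cc H S K).card : ℝ) * l * N ≤ 4 * σ * N * N := by
                calc ((Cc H S K).card : ℝ) * l * N = ((Cc H S K).card : ℝ) * K := by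
                      rw [hKdef]; ring
                  _ ≤ 4 * S * N := h4
                  _ = 4 * σ * N * N := by rw [hSdef]; ring
              exact le_of_mul_le_mul_right h6 hN0
            calc (∑ x ∈ C, ∑ y ∈ nb H S x, ex H S x y) * (p / (η * N))
                ≤ (4 * σ * N / l * (4 * S ^ 2)) * (p / (η * N)) := by
                  refine mul_le_mul_of_nonneg_right (h3.trans ?_) (by positivity)
                  exact mul_le_mul_of_nonneg_right h5 (by positivity)
              _ = N ^ 2 * (16 * p * σ ^ 3 / (η * l)) := by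
                  rw [hSdef]
                  field_simp
                  ring
      _ = _ := by ring
  -- the split of the adjacent pairs
  have h3 : ∑ x : V, ∑ y ∈ nb H S x, w x y ≤
      2 * ∑ x ∈ C, ∑ y ∈ nb H S x, w x y + 4 * S * K := by
    rw [← sum_filter_add_sum_filter_not univ (fun x => x ∈ C)]
    have e1 : (univ.filter fun x => x ∈ C) = C := by ext; simp
    rw [e1]
    set D := univ.filter fun x => ¬ x ∈ C with hD
    have h4 : ∑ x ∈ D, ∑ y ∈ nb H S x, w x y =
        ∑ x ∈ D, ∑ y ∈ (nb H S x).filter (· ∈ C), w x y +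
        ∑ x ∈ D, ∑ y ∈ (nb H S x).filter (fun y => ¬ y ∈ C), w x y := by
      rw [← sum_add_distrib]
      refine sum_congr rfl fun x _ => ?_
      rw [sum_filter_add_sum_filter_not]
    have h5 : ∑ x ∈ D, ∑ y ∈ (nb H S x).filter (· ∈ C), w x y ≤
        ∑ x ∈ C, ∑ y ∈ nb H S x, w x y := by
      rw [swap_nb h S C]
      calc ∑ x ∈ D, ∑ y ∈ (nb H S x).filter (· ∈ C), w x y
          ≤ ∑ x : V, ∑ y ∈ (nb H S x).filter (· ∈ C), w x y :=
            sum_le_sum_of_subset_of_nonneg (subset_univ _) fun _ _ _ =>
              sum_nonneg fun _ _ => hw0 _ _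
        _ = _ := sum_congr rfl fun x _ => sum_congr rfl fun y _ => hws x y
    have h6 : ∑ x ∈ D, ∑ y ∈ (nb H S x).filter (fun y => ¬ y ∈ C), w x y ≤ 4 * S * K := by
      refine le_trans ?_ (pairs_le h hS.le D (fun x hx => ?_) hK0.le)
      · refine sum_le_sum fun x _ => ?_
        calc ∑ y ∈ (nb H S x).filter (fun y => ¬ y ∈ C), w x y
            ≤ ∑ y ∈ (nb H S x).filter (fun y => ¬ y ∈ C), (1 : ℝ) :=
              sum_le_sum fun y _ => hw1 x y
          _ = (((nb H S x).filter (· ∈ D)).card : ℝ) := by
              rw [sum_const, nsmul_eq_mul, mul_one]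
              congr 2
              ext z
              simp [hD]
      · have h7 := (mem_filter.1 hx).2
        have h8 : k H S x ≤ K := by
          by_contra hcon
          exact h7 (mem_filter.2 ⟨mem_univ _, not_le.1 hcon⟩)
        refine le_trans ?_ h8
        unfold k
        exact_mod_cast card_le_card (filter_subset _ _)
    linarith
  calc ∑ x : V, ∑ y : V, w x y
      ≤ 2 * (N ^ 2 * (Real.exp η * Real.exp (-1) / p + 16 * p * σ ^ 3 / (η * l))) + 4 * S * K +
        N ^ 2 * Real.exp (-(p * σ)) := by linarith
    _ = _ := by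
        rw [hSdef, hKdef]
        ring

/-- **The number of pairs of nearly full codegree.** -/
theorem count (h : Free H) {σ l : ℝ} (hσ : 0 < σ) (hl : 4 * σ ≤ l) (hV : 0 < Fintype.card V) :
    ∑ x : V, k H (σ * Fintype.card V) x ≤
      (Fintype.card V : ℝ) ^ 2 * (2 * σ + 8 * σ ^ 2 / l + 4 * σ * l) := by
  set N : ℝ := ((Fintype.card V : ℕ) : ℝ) with hN
  have hN0 : 0 < N := by rw [hN]; exact_mod_cast hV
  have hl0 : 0 < l := by linarith
  set S : ℝ := σ * N with hSdef
  set K : ℝ := l * N with hKdef
  have hS : 0 < S := mul_pos hσ hN0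
  have hK0 : 0 < K := mul_pos hl0 hN0
  have hK : 4 * S ≤ K := by
    rw [hSdef, hKdef]
    nlinarith
  set C := Cc H S K with hC
  set E := ∑ x ∈ C, k H S x with hE
  have hE0 : 0 ≤ E := sum_nonneg fun _ _ => k_nonneg _
  have hCK : (C.card : ℝ) * K ≤ E := by
    rw [← nsmul_eq_mul, ← sum_const]
    exact sum_le_sum fun x hx => (mem_filter.1 hx).2.le
  -- the sum of the degrees of the neighbours
  have h1 : ∑ x ∈ C, ∑ y ∈ nb H S x, k H S y ≤ S * E + C.card * (4 * S ^ 2) := by
    calc ∑ x ∈ C, ∑ y ∈ nb H S x, k H S y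
        ≤ ∑ x ∈ C, ∑ y ∈ nb H S x, (S + ex H S x y) := by
          refine sum_le_sum fun x _ => sum_le_sum fun y hy => ?_
          have := k_le (H := H) (S := S) x y
          have h2 := mem_nb.1 hy
          linarith
      _ = S * E + ∑ x ∈ C, ∑ y ∈ nb H S x, ex H S x y := by
          simp only [sum_add_distrib, sum_const, nsmul_eq_mul]
          rw [hE, mul_sum]
          congr 1
          refine sum_congr rfl fun x _ => ?_
          unfold k
          ring
      _ ≤ _ := add_le_add le_rfl (path_sum h hS.le hK hK0.le)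
  have h2 : E ^ 2 ≤ N * ∑ x ∈ C, ∑ y ∈ nb H S x, k H S y := by
    set r : V → ℝ := fun y => (((nb H S y).filter (· ∈ C)).card : ℝ) with hr
    have e1 : E = ∑ y : V, r y := by
      have := swap_nb h S C (fun _ _ => (1 : ℝ))
      simp only [sum_const, nsmul_eq_mul, mul_one] at this
      exact this
    have e2 : ∑ x ∈ C, ∑ y ∈ nb H S x, k H S y = ∑ y : V, r y * k H S y := by
      rw [swap_nb h S C]
      refine sum_congr rfl fun y _ => ?_
      rw [sum_const, nsmul_eq_mul]
    rw [e2, e1]
    have h3 := sq_sum_le_card_mul_sum_sq (s := (univ : Finset V)) (f := r)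
    rw [card_univ, ← hN] at h3
    refine h3.trans (mul_le_mul_of_nonneg_left (sum_le_sum fun y _ => ?_) hN0.le)
    rw [sq]
    refine mul_le_mul_of_nonneg_left ?_ (Nat.cast_nonneg _)
    simp only [hr]
    unfold k
    exact_mod_cast card_le_card (filter_subset _ _)
  have h3 : E ≤ N * S * (1 + 4 * σ / l) := by
    rcases eq_or_lt_of_le hE0 with h0 | h0
    · rw [← h0]
      positivity
    · have h4 : (C.card : ℝ) * (4 * S ^ 2) ≤ S * E * (4 * σ / l) := by
        have h5 : (C.card : ℝ) ≤ E / K := by rwa [le_div_iff₀ hK0]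
        calc (C.card : ℝ) * (4 * S ^ 2) ≤ E / K * (4 * S ^ 2) :=
              mul_le_mul_of_nonneg_right h5 (by positivity)
          _ = S * E * (4 * σ / l) := by
              rw [hKdef, hSdef]
              field_simp
      have h5 : E * E ≤ (N * S * (1 + 4 * σ / l)) * E := by
        calc E * E = E ^ 2 := by ring
          _ ≤ N * (S * E + C.card * (4 * S ^ 2)) :=
            h2.trans (mul_le_mul_of_nonneg_left h1 hN0.le)
          _ ≤ N * (S * E + S * E * (4 * σ / l)) := by gcongr
          _ = _ := by ring
      exact le_of_mul_le_mul_right h5 h0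
  -- the split
  have h4 : ∑ x : V, k H S x ≤ 2 * E + 4 * S * K := by
    rw [← sum_filter_add_sum_filter_not univ (fun x => x ∈ C)]
    have e1 : (univ.filter fun x => x ∈ C) = C := by ext; simp
    rw [e1]
    set D := univ.filter fun x => ¬ x ∈ C with hD
    have h4 : ∑ x ∈ D, k H S x =
        ∑ x ∈ D, (((nb H S x).filter (· ∈ C)).card : ℝ) +
        ∑ x ∈ D, (((nb H S x).filter (fun y => ¬ y ∈ C)).card : ℝ) := by
      rw [← sum_add_distrib]
      refine sum_congr rfl fun x _ => ?_
      unfold k
      rw [← card_filter_add_card_filter_not (s := nb H S x) (fun y => y ∈ C)]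
      push_cast
      rfl
    have h5 : ∑ x ∈ D, (((nb H S x).filter (· ∈ C)).card : ℝ) ≤ E := by
      have := swap_nb h S C (fun _ _ => (1 : ℝ))
      simp only [sum_const, nsmul_eq_mul, mul_one] at this
      have e2 : E = ∑ x : V, (((nb H S x).filter (· ∈ C)).card : ℝ) := this
      rw [e2]
      exact sum_le_sum_of_subset_of_nonneg (subset_univ _) fun _ _ _ => Nat.cast_nonneg _
    have h6 : ∑ x ∈ D, (((nb H S x).filter (fun y => ¬ y ∈ C)).card : ℝ) ≤ 4 * S * K := by
      refine le_trans ?_ (pairs_le h hS.le D (fun x hx => ?_) hK0.le)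
      · refine sum_le_sum fun x _ => le_of_eq ?_
        congr 2
        ext z
        simp [hD]
      · have h7 := (mem_filter.1 hx).2
        have h8 : k H S x ≤ K := by
          by_contra hcon
          exact h7 (mem_filter.2 ⟨mem_univ _, not_le.1 hcon⟩)
        refine le_trans ?_ h8
        unfold k
        exact_mod_cast card_le_card (filter_subset _ _)
    linarith
  calc ∑ x : V, k H S x ≤ 2 * (N * S * (1 + 4 * σ / l)) + 4 * S * K := by linarith
    _ = _ := by
        rw [hSdef, hKdef]
        field_simp
        ring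

end Pool.Agent.Run7.h346.LC
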